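import Mathlib
import Pool.Agent.Run7.h275.S.I0

/-!
# Three pieces of the scheme interface: EQM, LCR, LFO
-/

set_option autoImplicit false
set_option linter.unusedVariables false

namespace Pool.Agent.Run7.h292.SC

open AlgebraicGeometry CategoryTheory Pool.Agent.W418.LU2 Pool.Agent.Run7.h275.RB Pool.Agent.Run7.h275.SC

section

variable {F : Type} [Field F]

lemma isDominant_gen (B : Subring F) : IsDominant (gen B) := by
  constructor
  have h : DenseRange (PrimeSpectrum.comap B.subtype) := by
    rw [PrimeSpectrum.denseRange_comap_iff_ker_le_nilRadical]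
    have : RingHom.ker B.subtype = ⊥ := (RingHom.injective_iff_ker_eq_bot _).1 Subtype.val_injective
    rw [this]
    exact bot_le
  exact h

/-- Morphisms to an affine scheme are determined at the generic point. -/
lemma eq_of_gen {O : Type} [CommRing O] (B : Subring F) (a b : Sp B ⟶ Spec (CommRingCat.of O))
    (h : gen B ≫ a = gen B ≫ b) : a = b := by
  have ha : a = Spec.map (Spec.preimage a) := (Spec.map_preimage a).symm
  have hb : b = Spec.map (Spec.preimage b) := (Spec.map_preimage b).symm
  rw [ha, hb] at h ⊢
  rw [gen, ← Spec.map_comp, ← Spec.map_comp] at h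
  have h2 := Spec.map_injective h
  congr 1
  ext x
  have h3 := congrArg (fun φ => φ.hom x) h2
  simpa using h3

end

theorem t_EQM : S_EQM := by
  intro F O _ _ B X f a b hf h
  have := isDominant_gen B
  have := hf
  refine ext_of_isDominant_of_isSeparated f ?_ (gen B) h
  apply eq_of_gen
  rw [← Category.assoc, ← Category.assoc, h]

theorem t_LCR : S_LCR := by
  intro R _ _ X r T j hj hcov α
  obtain ⟨i, z, hz⟩ := hcov (α (IsLocalRing.closedPoint R))
  have := hj i
  refine ⟨i, ?_⟩
  have hmem : α (IsLocalRing.closedPoint R) ∈ (j i).opensRange := ⟨z, hz⟩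
  have htop := Scheme.preimage_eq_top_of_closedPoint_mem α hmem
  have hr : Set.range α ⊆ Set.range (j i) := by
    rintro _ ⟨y, rfl⟩
    have : y ∈ α ⁻¹ᵁ (j i).opensRange := by rw [htop]; trivial
    exact this
  exact ⟨IsOpenImmersion.lift (j i) α hr, IsOpenImmersion.lift_fac _ _ _⟩

theorem t_LFO : S_LFO := by
  intro O F _ _ _ B hB h hh
  obtain ⟨s, hs⟩ := hB
  rw [← Spec.map_preimage h]
  rw [HasRingHomProperty.Spec_iff (P := @LocallyOfFiniteType)]
  have h2 : ∀ o : O, ((Spec.preimage h).hom o : F) = algebraMap O F o := by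
    intro o
    rw [← Spec.map_preimage h, gen, ← Spec.map_comp] at hh
    have h3 := Spec.map_injective hh
    have h4 := congrArg (fun φ => φ.hom o) h3
    simpa using h4
  subst hs
  have hA : (algebraMap O (Algebra.adjoin O (s : Set F))).FiniteType := by
    rw [RingHom.finiteType_algebraMap]
    exact (Subalgebra.fg_iff_finiteType _).1 ⟨s, rfl⟩
  let e : Algebra.adjoin O (s : Set F) →+* (Algebra.adjoin O (s : Set F)).toSubring :=
    { toFun := fun x => ⟨x.1, x.2⟩
      map_one' := rfl
      map_mul' := fun _ _ => rfl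
      map_zero' := rfl
      map_add' := fun _ _ => rfl }
  have h3 : (Spec.preimage h).hom = e.comp (algebraMap O (Algebra.adjoin O (s : Set F))) :=
    RingHom.ext fun o => Subtype.ext (h2 o)
  rw [h3]
  exact RingHom.FiniteType.comp_surjective hA (fun y => ⟨⟨y.1, y.2⟩, rfl⟩)

end Pool.Agent.Run7.h292.SC
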